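import Mathlib
import Pool.Agent.Helper835.PrimesFinal

set_option autoImplicit false

namespace Pool.Agent.Results.MP_9009ba_co.ManyPrimes

/-- Babai's question `(P) ⇒ (S)`: for every `ε > 0` there is `N` such that every finite group `G`
whose order has at least `N` distinct prime divisors is isomorphic to the automorphism group of a
finite graph with fewer than `ε |G|` vertices. -/
theorem result : ∀ ε : ℝ, 0 < ε → ∃ N : ℕ, ∀ (G : Type) [Group G] [Finite G],
    N ≤ (Nat.card G).primeFactors.card →
    ∃ (V : Type) (_ : Finite V) (X : SimpleGraph V),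
      Nonempty ((X ≃g X) ≃* G) ∧ (Nat.card V : ℝ) < ε * Nat.card G :=
  fun ε hε => Pool.Agent.Helper835.Primes.main ε hε

end Pool.Agent.Results.MP_9009ba_co.ManyPrimes
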